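import Pool.Agent.Helper96.ME.Defs
import Pool.Agent.Helper96.MP.VF
import Pool.Agent.Helper96.MP.MAIN
import Pool.Agent.Helper55.MP.TOT

/-!
# MP_bde085_nt, block E: module PDIM (uniqueness and integrality of potentials)
-/

set_option autoImplicit false

namespace Pool.Agent.Helper96.ME

open Pool.Agent.Helper96.MP
open scoped MatrixGroups

/-! ### Triangular matrices and nonzero vectors -/

theorem pdim_Tn_ne {n : ℕ} (hn : 1 ≤ n) {t : ℕ × ℕ × ℕ} (ht : t ∈ Tn n) {x y : ℤ}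
    (h : x ≠ 0 ∨ y ≠ 0) :
    ((t.1 : ℤ) * x + t.2.1 * y ≠ 0 ∨ (t.2.2 : ℤ) * y ≠ 0) := by
  simp only [Tn, Finset.mem_filter, Finset.mem_product, Finset.mem_range] at ht
  have h1 : t.1 ≠ 0 := by
    intro h0
    rw [h0, zero_mul] at ht
    omega
  have h2 : t.2.2 ≠ 0 := by omega
  by_cases hy : y = 0
  · left
    have hx : x ≠ 0 := by
      rcases h with h | h
      · exact h
      · exact absurd hy h
    rw [hy, mul_zero, add_zero]
    exact mul_ne_zero (by exact_mod_cast h1) hx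
  · right
    exact mul_ne_zero (by exact_mod_cast h2) hy

theorem pdim_det_ne {p x q y : ℤ} (h : p * y - x * q = 1) : (p ≠ 0 ∨ q ≠ 0) ∧ (x ≠ 0 ∨ y ≠ 0) := by
  constructor
  · by_contra hcon
    push Not at hcon
    rw [hcon.1, hcon.2] at h
    simp at h
  · by_contra hcon
    push Not at hcon
    rw [hcon.1, hcon.2] at h
    simp at h

theorem pdim_G0_ne {N : ℕ} {p q r s : ℤ} (h : G0 N p q r s) {x y : ℤ} (hxy : x ≠ 0 ∨ y ≠ 0) :
    (p * x + q * y ≠ 0 ∨ r * x + s * y ≠ 0) := by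
  by_contra hcon
  push Not at hcon
  obtain ⟨h1, h2⟩ := hcon
  have hx : x = 0 := by
    have : (p * s - q * r) * x = s * (p * x + q * y) - q * (r * x + s * y) := by ring
    rw [h.1, h1, h2] at this
    linarith
  have hy : y = 0 := by
    have : (p * s - q * r) * y = p * (r * x + s * y) - r * (p * x + q * y) := by ring
    rw [h.1, h1, h2] at this
    linarith
  rcases hxy with h | h
  · exact h hx
  · exact h hy

/-! ### Stability of `PT` -/

theorem pdim_HC_congr {n : ℕ} (hn : 1 ≤ n) {α : ℝ} {C C' : ℤ → ℤ → ℝ} {κ : ℝ}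
    (h : ∀ x y : ℤ, (x ≠ 0 ∨ y ≠ 0) → C' x y = C x y + κ) (hC : HC n α C) : HC n α C' := by
  obtain ⟨k, hk⟩ := hC
  refine ⟨(Tn n).card * κ + k - α * κ, ?_⟩
  intro x y hxy
  have h1 : ∑ t ∈ Tn n, C' (t.1 * x + t.2.1 * y) (t.2.2 * y) =
      ∑ t ∈ Tn n, (C (t.1 * x + t.2.1 * y) (t.2.2 * y) + κ) := by
    apply Finset.sum_congr rfl
    intro t ht
    exact h _ _ (pdim_Tn_ne hn ht hxy)
  rw [h1, Finset.sum_add_distrib, hk x y hxy, h x y hxy, Finset.sum_const, nsmul_eq_mul]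
  ring

theorem pdim_PT_congr {N : ℕ} {a : ℕ → ℤ} {ε : ℝ} {C C' : ℤ → ℤ → ℝ} {κ : ℝ}
    (h : ∀ x y : ℤ, (x ≠ 0 ∨ y ≠ 0) → C' x y = C x y + κ) (hH : Hom0 C') (hC : PT N a ε C) :
    PT N a ε C' := by
  refine ⟨hH, ?_, ?_, ?_⟩
  · intro p q r s hg x y hxy
    have hpr : p ≠ 0 ∨ r ≠ 0 := by
      have := pdim_G0_ne hg (x := 1) (y := 0) (Or.inl one_ne_zero)
      simpa using this
    rw [h _ _ (pdim_G0_ne hg hxy), h x y hxy, h p r hpr, h 1 0 (Or.inl one_ne_zero),
      hC.eqv p q r s hg x y hxy]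
    ring
  · obtain ⟨k, hk⟩ := hC.sign
    refine ⟨κ + k - ε * κ, ?_⟩
    intro x y hxy
    have hxy' : -x ≠ 0 ∨ y ≠ 0 := by
      rcases hxy with h | h
      · exact Or.inl (neg_ne_zero.2 h)
      · exact Or.inr h
    rw [h _ _ hxy', h x y hxy, hk x y hxy]
    ring
  · intro l hl hlN hl6
    obtain ⟨h1, h2⟩ := hC.hecke l hl hlN hl6
    exact ⟨pdim_HC_congr hl.one_lt.le h h1,
      pdim_HC_congr (Nat.one_le_pow _ _ hl.pos) h h2⟩

/-! ### From potentials to symbols -/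

theorem pdim_HRow (hSURJ : ST_SURJ) (hTILE : ST_TILE) (N n : ℕ) (hN : 1 ≤ N) (hn : 1 ≤ n)
    (hco : Nat.Coprime n N) (C : ℤ → ℤ → ℝ) (hC : Hom0 C) (v : PN N → ℝ)
    (hv : ∀ p x q y : ℤ, p * y - x * q = 1 → ev v q y = C p q - C x y) (α : ℝ)
    (hT : HC n α C) : HRow N n α v := by
  intro c d hcd
  obtain ⟨k, hk⟩ := hT
  obtain ⟨p, x, q, y, hdet, hq, hy⟩ := vf_red hSURJ N hN c d hcd
  have h1 : ∀ m : ℕ × ℕ × ℕ × ℕ, ev v (c * m.1 + d * m.2.2.1) (c * m.2.1 + d * m.2.2.2)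
      = ev v (q * m.1 + y * m.2.2.1) (q * m.2.1 + y * m.2.2.2) := by
    intro m
    apply vf_ev_congr
    · have : c * (m.1 : ℤ) + d * m.2.2.1 - (q * m.1 + y * m.2.2.1)
          = (c - q) * m.1 + (d - y) * m.2.2.1 := by ring
      rw [this]
      exact dvd_add (hq.mul_right _) (hy.mul_right _)
    · have : c * (m.2.1 : ℤ) + d * m.2.2.2 - (q * m.2.1 + y * m.2.2.2)
          = (c - q) * m.2.1 + (d - y) * m.2.2.2 := by ring
      rw [this]
      exact dvd_add (hq.mul_right _) (hy.mul_right _)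
  rw [Finset.sum_congr rfl (fun m _ => h1 m), hTILE ℝ N n hN hn hco C v hC hv p x q y hdet,
    Finset.sum_sub_distrib, hk p q (pdim_det_ne hdet).1, hk x y (pdim_det_ne hdet).2,
    vf_ev_congr v hq hy, hv p x q y hdet]
  ring

theorem pdim_neg {V : Type} {C : ℤ → ℤ → V} (hC : Hom0 C) (p q : ℤ) : C (-p) (-q) = C p q := by
  have := hC (-1) p q (by norm_num)
  simpa using this

theorem pdim_fwd (hSURJ : ST_SURJ) (hTILE : ST_TILE) (N : ℕ) (a : ℕ → ℤ) (ε : ℝ) (hN : 1 ≤ N)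
    (C : ℤ → ℤ → ℝ) (hC : PT N a ε C) (v : PN N → ℝ)
    (hv : ∀ p x q y : ℤ, p * y - x * q = 1 → ev v q y = C p q - C x y) : Eall N a ε v := by
  refine ⟨⟨?_, ?_, ?_⟩, ?_⟩
  · intro c d hcd
    obtain ⟨p, x, q, y, hdet, hq, hy⟩ := vf_red hSURJ N hN c d hcd
    rw [vf_ev_congr v hq hy, vf_ev_congr v (c := y) (d := -q) (c' := d) (d' := -c) hy (by
      have : -c - -q = -(c - q) := by ring
      rw [this]; exact (dvd_neg).mpr hq)]
    have h1 := hv p x q y hdet
    have h2 := hv x (-p) y (-q) (by linarith)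
    rw [h1, h2, pdim_neg hC.hom]; ring
  · intro c d hcd
    obtain ⟨p, x, q, y, hdet, hq, hy⟩ := vf_red hSURJ N hN c d hcd
    rw [vf_ev_congr v hq hy, vf_ev_congr v (c := q + y) (d := -q) (c' := c + d) (d' := -c) (by
      have : c + d - (q + y) = (c - q) + (d - y) := by ring
      rw [this]; exact dvd_add hq hy) (by
      have : -c - -q = -(c - q) := by ring
      rw [this]; exact (dvd_neg).mpr hq),
      vf_ev_congr v (c := y) (d := -q - y) (c' := d) (d' := -c - d) hy (by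
      have : -c - d - (-q - y) = -((c - q) + (d - y)) := by ring
      rw [this]; exact (dvd_neg).mpr (dvd_add hq hy))]
    have h1 := hv p x q y hdet
    have h2 := hv (p + x) (-p) (q + y) (-q) (by linarith)
    have h3 := hv x (-p - x) y (-q - y) (by linarith)
    have h5 : C (-p - x) (-q - y) = C (p + x) (q + y) := by
      have := pdim_neg hC.hom (p + x) (q + y)
      rw [← this]; congr 1 <;> ring
    rw [h1, h2, h3, pdim_neg hC.hom, h5]; ring
  · intro c d hcd
    obtain ⟨p, x, q, y, hdet, hq, hy⟩ := vf_red hSURJ N hN c d hcd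
    rw [vf_ev_congr v hq hy, vf_ev_congr v (c := -q) (d := y) (c' := -c) (d' := d) (by
      have : -c - -q = -(c - q) := by ring
      rw [this]; exact (dvd_neg).mpr hq) hy]
    have h1 := hv p x q y hdet
    have h2 := hv p (-x) (-q) y (by linarith)
    have h3 : C p (-q) = C (-p) q := by
      have := pdim_neg hC.hom (-p) q
      simpa using this
    obtain ⟨k, hk⟩ := hC.sign
    rw [h1, h2, h3, hk p q (pdim_det_ne hdet).1, hk x y (pdim_det_ne hdet).2]
    ring
  · intro l hl hlN hl6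
    have hco : Nat.Coprime l N := (Nat.Prime.coprime_iff_not_dvd hl).mpr hlN
    obtain ⟨h1, h2⟩ := hC.hecke l hl hlN hl6
    exact ⟨pdim_HRow hSURJ hTILE N l hN hl.one_lt.le hco C hC.hom v hv _ h1,
      pdim_HRow hSURJ hTILE N (l ^ 2) hN (Nat.one_le_pow _ _ hl.pos) (Nat.Coprime.pow_left 2 hco)
        C hC.hom v hv _ h2⟩

/-! ### From symbols to potentials -/

theorem pdim_const (hCONN : ST_CONN) (E : ℤ → ℤ → ℝ) (hE : Hom0 E)
    (h : ∀ p x q y : ℤ, p * y - x * q = 1 → E p q = E x y) (x y : ℤ) (hxy : x ≠ 0 ∨ y ≠ 0) :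
    E x y = E 1 0 := by
  have := hCONN ℝ ⊥ E hE (by
    intro p x q y h'
    rw [AddSubgroup.mem_bot, h p x q y h', sub_self]) x y hxy
  rw [AddSubgroup.mem_bot] at this
  linarith

theorem pdim_HC (hCONN : ST_CONN) (hTILE : ST_TILE) (N n : ℕ) (hN : 1 ≤ N) (hn : 1 ≤ n)
    (hco : Nat.Coprime n N) (C : ℤ → ℤ → ℝ) (hC : Hom0 C) (v : PN N → ℝ)
    (hv : ∀ p x q y : ℤ, p * y - x * q = 1 → ev v q y = C p q - C x y) (α : ℝ)
    (hT : HRow N n α v) : HC n α C := by
  set E : ℤ → ℤ → ℝ := fun x y =>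
    ∑ t ∈ Tn n, C (t.1 * x + t.2.1 * y) (t.2.2 * y) - α * C x y with hEdef
  have hE : Hom0 E := by
    intro k p q hk
    simp only [hEdef]
    rw [hC k p q hk]
    congr 1
    apply Finset.sum_congr rfl
    intro t _
    rw [← hC k (t.1 * p + t.2.1 * q) (t.2.2 * q) hk]
    congr 1 <;> ring
  refine ⟨E 1 0, ?_⟩
  intro x y hxy
  have h1 := pdim_const hCONN E hE (by
    intro p x q y hdet
    have hu : Uni N q y := by
      rw [vf_uni_iff]
      intro k hk1 hk2 _
      have h1 : (k : ℤ) ∣ 1 := by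
        rw [← hdet]
        exact dvd_sub (hk2.mul_left _) (hk1.mul_left _)
      have h2 : k ∣ 1 := by exact_mod_cast h1
      exact Nat.dvd_one.1 h2
    have h2 := hT q y hu
    rw [hTILE ℝ N n hN hn hco C v hC hv p x q y hdet, Finset.sum_sub_distrib,
      hv p x q y hdet] at h2
    simp only [hEdef]
    linarith) x y hxy
  have h2 : E x y = ∑ t ∈ Tn n, C (t.1 * x + t.2.1 * y) (t.2.2 * y) - α * C x y := rfl
  linarith

theorem pdim_uni_of_det {N : ℕ} {p x q y : ℤ} (hdet : p * y - x * q = 1) : Uni N q y := by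
  rw [vf_uni_iff]
  intro k hk1 hk2 _
  have h1 : (k : ℤ) ∣ 1 := by
    rw [← hdet]
    exact dvd_sub (hk2.mul_left _) (hk1.mul_left _)
  have h2 : k ∣ 1 := by exact_mod_cast h1
  exact Nat.dvd_one.1 h2

theorem pdim_bwd (hCONN : ST_CONN) (hTILE : ST_TILE) (N : ℕ) (a : ℕ → ℤ) (ε : ℝ) (hN : 1 ≤ N)
    (C : ℤ → ℤ → ℝ) (hC : Hom0 C) (hEq : EqC N C) (v : PN N → ℝ)
    (hv : ∀ p x q y : ℤ, p * y - x * q = 1 → ev v q y = C p q - C x y)
    (hE : Eall N a ε v) : PT N a ε C := by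
  refine ⟨hC, hEq, ?_, ?_⟩
  · set E : ℤ → ℤ → ℝ := fun x y => C (-x) y - ε * C x y with hEdef
    have hEh : Hom0 E := by
      intro k p q hk
      simp only [hEdef]
      rw [hC k p q hk, ← hC k (-p) q hk]
      congr 2
      ring
    refine ⟨E 1 0, ?_⟩
    intro x y hxy
    have h1 := pdim_const hCONN E hEh (by
      intro p x q y hdet
      have hu : Uni N q y := pdim_uni_of_det hdet
      have hu' : Uni N y q := by
        have : x * (-q) - (-p) * y = 1 := by linarith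
        rw [vf_uni_iff] at hu ⊢
        intro k h1 h2 h3
        exact hu k h2 h1 h3
      have e1 := hv p x q y hdet
      have e2 := hv (-x) (-p) y q (by linarith)
      have e3 := hE.1.sign q y hu
      have hu'' : Uni N (-q) y := by
        rw [vf_uni_iff] at hu ⊢
        intro k h1 h2 h3
        exact hu k ((dvd_neg).1 h1) h2 h3
      have e4 := hE.1.two (-q) y hu''
      rw [neg_neg] at e4
      simp only [hEdef]
      rw [e3, e1, e2] at e4
      linarith) x y hxy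
    have h2 : E x y = C (-x) y - ε * C x y := rfl
    linarith
  · intro l hl hlN hl6
    have hco : Nat.Coprime l N := (Nat.Prime.coprime_iff_not_dvd hl).mpr hlN
    obtain ⟨h1, h2⟩ := hE.2 l hl hlN hl6
    exact ⟨pdim_HC hCONN hTILE N l hN hl.one_lt.le hco C hC v hv _ h1,
      pdim_HC hCONN hTILE N (l ^ 2) hN (Nat.one_le_pow _ _ hl.pos) (Nat.Coprime.pow_left 2 hco)
        C hC v hv _ h2⟩

/-! ### The symbol of a newform -/

theorem pdim_ev_re_im {N : ℕ} (b : ℕ → ℂ) (v : PN N → ℂ)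
    (hv : ∀ p x q y : ℤ, p * y - x * q = 1 → ev v q y = FC b p q - FC b x y) :
    (∀ p x q y : ℤ, p * y - x * q = 1 →
      ev (fun x => (v x).re) q y = (FC b p q).re - (FC b x y).re) ∧
    (∀ p x q y : ℤ, p * y - x * q = 1 →
      ev (fun x => (v x).im) q y = (FC b p q).im - (FC b x y).im) := by
  constructor
  · intro p x q y h
    rw [vf_ev_re, hv p x q y h, Complex.sub_re]
  · intro p x q y h
    rw [vf_ev_im, hv p x q y h, Complex.sub_im]

theorem pdim_newform (hVF : ST_VF) (hDIMO : ST_DIMO) (hINJ : ST_INJ) (hCONN : ST_CONN)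
    (hFCL : ST_FCL) (hFLIM : ST_FLIM) (N : ℕ) (a : ℕ → ℤ) (ε : ℝ) (hN : 1 ≤ N)
    (hnf : Newform N a) (hε : ε = 1 ∨ ε = -1) :
    ∃ u : PN N → ℝ, Eall N a ε u ∧ u ≠ 0 ∧
      ∀ w, Eall N a ε w → ∃ κ : ℝ, ∀ x, w x = κ * u x := by
  set b : ℕ → ℂ := fun k => (a k : ℂ) with hb
  obtain ⟨v, hv, hvre, hvim⟩ := hVF N a hN hnf
  obtain ⟨hline1, hline2⟩ := hDIMO N a v hN hnf hv
  obtain ⟨_, hhom, _, _, _⟩ := hFLIM N b hN hnf.cusp
  obtain ⟨hedge1, hedge2⟩ := pdim_ev_re_im b v hv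
  have hG : ∀ p q r s : ℤ, G0 N p q r s → (p ≠ 0 ∨ r ≠ 0) := by
    intro p q r s hg
    have := pdim_G0_ne hg (x := 1) (y := 0) (Or.inl one_ne_zero)
    simpa using this
  rcases hε with rfl | rfl
  · refine ⟨_, hvre, ?_, hline1⟩
    intro h0
    have h1 := hINJ N b hN hnf.cusp (by
      intro p q r s hg
      have := pdim_const hCONN (fun p q => (FC b p q).re) (by
        intro k p q hk; simp only; rw [hhom k p q hk]) (by
        intro p x q y hdet
        have h2 := hedge1 p x q y hdet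
        rw [h0] at h2
        have h3 : ev (0 : PN N → ℝ) q y = 0 := main_ev_zero q y
        rw [h3] at h2
        linarith) p r (hG p q r s hg)
      rw [Complex.sub_re]
      linarith) 1
    simp [hb, hnf.one] at h1
  · refine ⟨_, hvim, ?_, hline2⟩
    intro h0
    obtain ⟨_, hc2, _, hc4, _, _⟩ := hFCL N b b Complex.I hN hnf.cusp hnf.cusp
    have h1 := hINJ N (fun n => Complex.I * b n) hN hc2 (by
      intro p q r s hg
      have := pdim_const hCONN (fun p q => (FC b p q).im) (by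
        intro k p q hk; simp only; rw [hhom k p q hk]) (by
        intro p x q y hdet
        have h2 := hedge2 p x q y hdet
        rw [h0] at h2
        have h3 : ev (0 : PN N → ℝ) q y = 0 := main_ev_zero q y
        rw [h3] at h2
        linarith) p r (hG p q r s hg)
      rw [Complex.sub_re, hc4, hc4]
      simp [this]) 1
    simp [hb, hnf.one] at h1

/-! ### An integral generator -/

theorem pdim_int (hLA : ST_LA) (hPNF : ST_PNF) (N : ℕ) (a : ℕ → ℤ) (ε : ℤ) (hN : 1 ≤ N)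
    (hε : ε = 1 ∨ ε = -1) (hfin : Module.finrank ℝ (mainE N a (ε : ℝ)) = 1) :
    ∃ v : PN N → ℤ, v ≠ 0 ∧ Eall N a ε (fun x => (v x : ℝ)) := by
  classical
  obtain ⟨hfinite, _, _⟩ := hPNF N hN
  have instF : Fintype (PN N) := Fintype.ofFinite (PN N)
  set Rw : ℕ → Set (PN N → ℤ) := fun _ => tot_R0 N ε ∪ tot_R1 N a (N ^ 6) with hRw
  set g : ℕ → ℝ := fun l => (((Sn l).card : ℝ) + |((a l : ℤ) : ℝ)|) +
    (((Sn (l ^ 2)).card : ℝ) + |(((a l) ^ 2 - l : ℤ) : ℝ)|) with hg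
  have hg0 : ∀ l, 0 ≤ g l := by
    intro l
    simp only [hg]
    positivity
  set B : ℕ → ℝ := fun _ => 3 + ∑ l ∈ Finset.range (N ^ 6 + 1), g l with hB
  have hsum0 : 0 ≤ ∑ l ∈ Finset.range (N ^ 6 + 1), g l := Finset.sum_nonneg (fun l _ => hg0 l)
  obtain ⟨v, hv0, hvE, _⟩ := hLA (PN N) 1 Rw B (tot_ker Rw) (by
    intro j
    simp only [hB]
    linarith) (by
    intro j r hr
    simp only [hB]
    rcases hr with hr | hr
    · have := tot_R0_l1 ε hε r hr
      unfold tot_l1 at this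
      linarith
    · obtain ⟨l, hl, hlN, _, hl6, c, d, hu, hr⟩ := hr
      have h1 : g l ≤ ∑ l ∈ Finset.range (N ^ 6 + 1), g l :=
        Finset.single_le_sum (f := g) (fun l _ => hg0 l)
          (Finset.mem_range.2 (Nat.lt_succ_of_le hl6))
      have h2 : (0 : ℝ) ≤ ((Sn l).card : ℝ) + |((a l : ℤ) : ℝ)| := by positivity
      have h3 : (0 : ℝ) ≤ ((Sn (l ^ 2)).card : ℝ) + |(((a l) ^ 2 - l : ℤ) : ℝ)| := by positivity
      simp only [hg] at h1
      rcases hr with hr | hr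
      · have := tot_H_l1 (N := N) l (a l) c d
        rw [← hr] at this
        unfold tot_l1 at this
        linarith
      · have := tot_H_l1 (N := N) (l ^ 2) ((a l) ^ 2 - l) c d
        rw [← hr] at this
        unfold tot_l1 at this
        linarith) (fun j v => tot_mem_ker Rw j v) (by
    have h1 : tot_ker Rw 1 = mainE N a (ε : ℝ) := by
      ext v
      rw [tot_mem_ker]
      change _ ↔ Eall N a ε v
      constructor
      · intro h
        have h2 := h 0 Nat.zero_lt_one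
        refine ⟨(tot_R0_iff ε v).1 (fun r hr => h2 r (Or.inl hr)), ?_⟩
        intro l hl hlN hl6
        exact (tot_R1_iff a (N ^ 6) v).1 (fun r hr => h2 r (Or.inr hr)) l hl hlN hl6 hl6
      · intro h i _ r hr
        rcases hr with hr | hr
        · exact (tot_R0_iff ε v).2 h.1 r hr
        · exact (tot_R1_iff a (N ^ 6) v).2 (fun l hl hlN _ hl6 => h.2 l hl hlN hl6) r hr
    rw [h1]
    exact hfin)
  refine ⟨v, hv0, ?_⟩
  rw [tot_mem_ker] at hvE
  have h2 := hvE 0 Nat.zero_lt_one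
  refine ⟨(tot_R0_iff ε _).1 (fun r hr => h2 r (Or.inl hr)), ?_⟩
  intro l hl hlN hl6
  exact (tot_R1_iff a (N ^ 6) _).1 (fun r hr => h2 r (Or.inr hr)) l hl hlN hl6 hl6

/-! ### Main theorem -/

/-- PDIM -/
theorem st_PDIM (hVF : ST_VF) (hDIMO : ST_DIMO) (hINJ : ST_INJ) (hTILE : ST_TILE)
    (hFAREY : ST_FAREY) (hVEX : ST_VEX) (hCONN : ST_CONN) (hLA : ST_LA) (hFCL : ST_FCL)
    (hPNF : ST_PNF) (hFLIM : ST_FLIM) (hSURJ : ST_SURJ) : ST_PDIM := by
  intro N a ε hN hnf hε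
  obtain ⟨u, huE, hu0, hline⟩ := pdim_newform hVF hDIMO hINJ hCONN hFCL hFLIM N a ε hN hnf hε
  have hfin := main_finrank N a ε u huE hu0 hline
  obtain ⟨ε', hε', hεε⟩ : ∃ ε' : ℤ, (ε' = 1 ∨ ε' = -1) ∧ (ε' : ℝ) = ε := by
    rcases hε with h | h
    · exact ⟨1, Or.inl rfl, by rw [h]; norm_num⟩
    · exact ⟨-1, Or.inr rfl, by rw [h]; norm_num⟩
  subst hεε
  obtain ⟨w, hw0, hwE⟩ := pdim_int hLA hPNF N a ε' hN hε' hfin
  obtain ⟨C', hC'h, hC'e, hC'edge⟩ := hFAREY N hN (fun x => (w x : ℝ)) hwE.1.two hwE.1.three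
  have hPT' := pdim_bwd hCONN hTILE N a ε' hN C' hC'h hC'e _ hC'edge hwE
  -- integrality
  have hint : ∀ p q : ℤ, (p ≠ 0 ∨ q ≠ 0) → ∃ z : ℤ, C' p q - C' 1 0 = z := by
    intro p q h
    have := hCONN ℝ (Int.castAddHom ℝ).range C' hC'h (by
      intro p x q y h
      rw [← hC'edge p x q y h]
      unfold ev
      by_cases h' : Uni N q y
      · simp only [h', dif_pos]
        exact ⟨_, rfl⟩
      · simp only [h', dif_neg, not_false_eq_true]
        exact AddSubgroup.zero_mem _) p q h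
    obtain ⟨z, hz⟩ := this
    exact ⟨z, hz.symm⟩
  set C0 : ℤ → ℤ → ℤ := fun x y => round (C' x y - C' 1 0) with hC0
  have hC0v : ∀ x y : ℤ, (x ≠ 0 ∨ y ≠ 0) → (C0 x y : ℝ) = C' x y + (-C' 1 0) := by
    intro x y h
    obtain ⟨z, hz⟩ := hint x y h
    simp only [hC0]
    rw [hz, round_intCast, ← hz]
    ring
  have hC0h : Hom0 (fun x y => (C0 x y : ℝ)) := by
    intro k p q hk
    simp only [hC0]
    rw [hC'h k p q hk]
  have hPT0 : PT N a ε' (fun x y => (C0 x y : ℝ)) :=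
    pdim_PT_congr (κ := -C' 1 0) hC0v hC0h hPT'
  refine ⟨C0, hPT0, ?_, ?_⟩
  · -- not constant
    by_contra hcon
    push Not at hcon
    apply hw0
    funext z
    obtain ⟨⟨⟨c, d⟩, hcd⟩, rfl⟩ := Quotient.exists_rep z
    have hcd' : Uni N c d := hcd
    obtain ⟨p, x, q, y, hdet, hq, hy⟩ := vf_red hSURJ N hN c d hcd'
    have h1 := hC'edge p x q y hdet
    have h2 := vf_ev_congr (fun x => (w x : ℝ)) hq hy
    obtain ⟨n1, n2⟩ := pdim_det_ne hdet
    have e1 := hC0v p q n1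
    have e2 := hC0v x y n2
    rw [hcon p q n1] at e1
    rw [hcon x y n2] at e2
    have h3 : ev (fun x => (w x : ℝ)) c d = 0 := by
      rw [h2, h1]
      linarith
    unfold ev at h3
    rw [dif_pos hcd'] at h3
    have h4 : (w (Quotient.mk (sPN N) ⟨(c, d), hcd'⟩) : ℝ) = 0 := h3
    have h5 : w (Quotient.mk (sPN N) ⟨(c, d), hcd'⟩) = 0 := by exact_mod_cast h4
    exact h5
  · -- uniqueness
    intro C hC
    obtain ⟨v, hv⟩ := hVEX ℝ N hN C hC.hom hC.eqv
    have hvE := pdim_fwd hSURJ hTILE N a ε' hN C hC v hv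
    obtain ⟨k1, hk1⟩ := hline v hvE
    obtain ⟨k2, hk2⟩ := hline _ hwE
    have hk20 : k2 ≠ 0 := by
      intro h0
      apply hw0
      funext x
      have := hk2 x
      rw [h0, zero_mul] at this
      exact_mod_cast this
    refine ⟨k1 / k2, ?_⟩
    set E : ℤ → ℤ → ℝ := fun x y => C x y - k1 / k2 * C' x y with hEdef
    have hE : Hom0 E := by
      intro k p q hk
      simp only [hEdef]
      rw [hC.hom k p q hk, hC'h k p q hk]
    have hcst := pdim_const hCONN E hE (by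
      intro p x q y hdet
      have e1 := hv p x q y hdet
      have e2 := hC'edge p x q y hdet
      have e3 : ev v q y = k1 / k2 * ev (fun x => (w x : ℝ)) q y := by
        rw [← main_ev_mul]
        congr 1
        funext x
        rw [hk1 x, hk2 x]
        field_simp
      rw [e1, e2] at e3
      simp only [hEdef]
      linarith)
    refine ⟨E 1 0 + k1 / k2 * C' 1 0, ?_⟩
    intro x y hxy
    have h1 := hcst x y hxy
    have h2 : E x y = C x y - k1 / k2 * C' x y := rfl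
    simp only
    rw [hC0v x y hxy]
    linarith

end Pool.Agent.Helper96.ME
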